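import Pool.Agent.Lib.MP_1b9aaa_al.MainG
import Pool.Agent.Lib.MP_1b9aaa_al.T5Z

/-!
# MP_1b9aaa_al: abelian splitting of algebras of period `n` prime to 10 when `F(ζ_n)/F` is cyclic of
degree dividing 5
-/

set_option autoImplicit false

open scoped TensorProduct

namespace Pool.Agent.Results.MP_1b9aaa_al.QuinticCyclotomic

open Pool.Agent.MP_1b9aaa_al

/-- Let `n` be prime to 10 and let `K / F` be a cyclic Galois extension of degree dividing 5 which
contains a primitive `n`-th root of unity `ζ`. Let `A` be a finite-dimensional `F`-algebra such that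
`K ⊗ A` is Brauer equivalent to a tensor product of symbol algebras `(a,b)_ζ` of degree `n`.
Then `A` is split by a finite Galois extension of `F` with abelian Galois group. -/
theorem result (F K A : Type) [Field F] [Field K] [Ring A] [Algebra F K] [Algebra F A]
    [FiniteDimensional F K] [FiniteDimensional F A] [IsGalois F K] [IsCyclic (K ≃ₐ[F] K)]
    (h5 : Module.finrank F K ∣ 5) (n : ℕ) (hn : Nat.Coprime 10 n) (ζ : K)
    (hζ : IsPrimitiveRoot ζ n) (hA : cls K (K ⊗[F] A) ∈ symClasses K n ζ) :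
    ∃ (L : Type) (_ : Field L) (_ : Algebra F L),
      FiniteDimensional F L ∧ IsGalois F L ∧ (∀ σ τ : L ≃ₐ[F] L, σ * τ = τ * σ) ∧
      ∃ r : ℕ, Nonempty ((L ⊗[F] A) ≃ₐ[L] Matrix (Fin r) (Fin r) L) := by
  have hn2 : Odd n := by
    rw [← Nat.coprime_two_left]
    exact Nat.Coprime.coprime_dvd_left ⟨5, rfl⟩ hn
  have hn5 : Nat.Coprime 5 n := Nat.Coprime.coprime_dvd_left ⟨2, rfl⟩ hn
  exact abelian_splittingG F hn2 hn5 (by norm_num) K h5
    (fun g hg T _ c hc hcn u v hu hv => hc.eq_zero_of_five hg hn2 hζ hcn hu hv) hζ A hA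

end Pool.Agent.Results.MP_1b9aaa_al.QuinticCyclotomic
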