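import Pool.Agent.Lib.MP_1b9aaa_al.MainG
import Pool.Agent.Lib.MP_1b9aaa_al.SxT

/-!
# MP_1b9aaa_al: abelian splitting of algebras of period `n` prime to 6 when `F(ζ_n)/F` is cyclic of
degree dividing 6 (for instance all algebras of degree 7)
-/

set_option autoImplicit false

open scoped TensorProduct

namespace Pool.Agent.Results.MP_1b9aaa_al.SexticCyclotomic

open Pool.Agent.MP_1b9aaa_al

/-- Let `n` be prime to 6 and let `K / F` be a cyclic Galois extension of degree dividing 6 which
contains a primitive `n`-th root of unity `ζ`. Let `A` be a finite-dimensional `F`-algebra such that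
`K ⊗ A` is Brauer equivalent to a tensor product of symbol algebras `(a,b)_ζ` of degree `n`.
Then `A` is split by a finite Galois extension of `F` with abelian Galois group. -/
theorem result (F K A : Type) [Field F] [Field K] [Ring A] [Algebra F K] [Algebra F A]
    [FiniteDimensional F K] [FiniteDimensional F A] [IsGalois F K] [IsCyclic (K ≃ₐ[F] K)]
    (h6 : Module.finrank F K ∣ 6) (n : ℕ) (hn : Nat.Coprime 6 n) (ζ : K)
    (hζ : IsPrimitiveRoot ζ n) (hA : cls K (K ⊗[F] A) ∈ symClasses K n ζ) :
    ∃ (L : Type) (_ : Field L) (_ : Algebra F L),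
      FiniteDimensional F L ∧ IsGalois F L ∧ (∀ σ τ : L ≃ₐ[F] L, σ * τ = τ * σ) ∧
      ∃ r : ℕ, Nonempty ((L ⊗[F] A) ≃ₐ[L] Matrix (Fin r) (Fin r) L) := by
  have hn2 : Odd n := by
    rw [← Nat.coprime_two_left]
    exact Nat.Coprime.coprime_dvd_left ⟨3, rfl⟩ hn
  exact abelian_splittingG F hn2 hn (by norm_num) K h6
    (fun g hg T _ c hc hcn u v hu hv => hc.eq_zero_of_six hg hn hcn hu hv) hζ A hA

end Pool.Agent.Results.MP_1b9aaa_al.SexticCyclotomic
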