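import Pool.Agent.Lib.MP_1b9aaa_al.TenMain

/-!
# MP_1b9aaa_al: abelian splitting of algebras of exponent 11 (and of every exponent `n` whose prime
divisors are `11 mod 20`, with `[F(ζ_n) : F]` dividing 10) over fields containing a primitive 20th
root of unity
-/

set_option autoImplicit false

open scoped TensorProduct

namespace Pool.Agent.Results.MP_1b9aaa_al.UndecicCyclotomic

open Pool.Agent.MP_1b9aaa_al

/-- Let `F` be a field containing a primitive 20th root of unity, `n ≠ 0` an integer all of whose
prime divisors are `11 mod 20` (for instance `n = 11`), and let `K = F(ζ)`, `ζ` a primitive `n`-th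
root of unity, be a cyclic Galois extension of degree dividing 10 (for `n = 11` this always holds).
Let `A` be a finite-dimensional `F`-algebra such that `K ⊗ A` is Brauer equivalent to a tensor
product of symbol algebras `(a,b)_ζ` of degree `n`.  Then `A` is split by a finite Galois extension
of `F` with abelian Galois group. -/
theorem result (F K A : Type) [Field F] [Field K] [Ring A] [Algebra F K] [Algebra F A]
    [FiniteDimensional F K] [FiniteDimensional F A] [IsGalois F K] [IsCyclic (K ≃ₐ[F] K)]
    (h10 : Module.finrank F K ∣ 10) (n : ℕ) (hn0 : n ≠ 0)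
    (hn : ∀ p : ℕ, p.Prime → p ∣ n → p % 20 = 11) (ζ : K) (hζ : IsPrimitiveRoot ζ n)
    (hgen : IntermediateField.adjoin F {ζ} = ⊤) (z : F) (hz : IsPrimitiveRoot z 20)
    (hA : cls K (K ⊗[F] A) ∈ symClasses K n ζ) :
    ∃ (L : Type) (_ : Field L) (_ : Algebra F L),
      FiniteDimensional F L ∧ IsGalois F L ∧ (∀ σ τ : L ≃ₐ[F] L, σ * τ = τ * σ) ∧
      ∃ r : ℕ, Nonempty ((L ⊗[F] A) ≃ₐ[L] Matrix (Fin r) (Fin r) L) :=
  Ten.final F K A hn0 hn h10 hζ hgen hz hA

end Pool.Agent.Results.MP_1b9aaa_al.UndecicCyclotomic
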